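import Pool.Agent.TH727.AT.Tool
import Pool.Agent.TH15.AT.Ifc

/-!
# The `f` part of the interface of phase 2
-/

set_option autoImplicit false

open MeasureTheory ProbabilityTheory Set Filter Topology
open Pool.TH198.AT

namespace Pool.Agent.TH727.AT

theorem t_F : Pool.TH15.AT.St_F := by
  intro β ζ f hβ hζ hf
  obtain ⟨fx, fxx, hd, hc1, hc2, ⟨C, hC⟩, hint⟩ := hf
  have hC0 : 0 ≤ C := (abs_nonneg _).trans (hC 0 ⟨le_rfl, zero_le_one⟩ 0).1
  refine ⟨fx, fxx, β ^ 2 * (C + C ^ 2) + 1, hd,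
    fun t ht x => f_deriv (β := β) hζ hc1 hc2 hC hint ht x,
    f_cont (β := β) hζ hc1 hc2 hC hint, ?_⟩
  intro t ht x
  have h0 := f_lower (β := β) hζ hC hint ht x
  have h1 : f t x ≤ |x| + β ^ 2 * (C + C ^ 2) := by
    rw [f_eq hint ht x]
    have h2 : ‖∫ r in t..1, gc β ζ fx fxx r x‖ ≤ (β ^ 2 * (C + C ^ 2)) * |1 - t| :=
      intervalIntegral.norm_integral_le_of_norm_le_const fun r _ => gc_bd hζ hC r x
    have h3 : |1 - t| ≤ 1 := by
      rw [abs_le]; constructor <;> linarith [ht.1, ht.2]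
    have h4 : (β ^ 2 * (C + C ^ 2)) * |1 - t| ≤ β ^ 2 * (C + C ^ 2) :=
      mul_le_of_le_one_right (by positivity) h3
    have h5 := (abs_le.mp (h2.trans h4)).2
    have h6 := logcosh_le x
    linarith
  have hM : 0 ≤ β ^ 2 * (C + C ^ 2) := by positivity
  have hx := abs_nonneg x
  have hMx : 0 ≤ β ^ 2 * (C + C ^ 2) * |x| := mul_nonneg hM hx
  rw [abs_le]
  constructor <;> nlinarith

end Pool.Agent.TH727.AT
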