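import Pool.Agent.TH727.AT.Tool

/-!
# Phase 1 of the dA-T line: lower bound for Parisi solutions on `[q,1]`
-/

set_option autoImplicit false

open MeasureTheory ProbabilityTheory Set Filter Topology
open Pool.TH198.AT

namespace Pool.Agent.TH727.AT

lemma sh0 {F : ℝ → ℝ} {F' x : ℝ} (h : HasDerivAt F F' x) : HasDerivAt (fun u => F (x + u)) F' 0 := by
  apply HasDerivAt.comp_const_add
  rwa [add_zero]

lemma contOn_ext {k : ℝ → ℝ → ℝ} (h : ContinuousOn (fun p : ℝ × ℝ => k p.1 p.2) (Ici 0 ×ˢ univ)) :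
    Continuous (fun p : ℝ × ℝ => k (max p.1 0) p.2) := by
  have h1 : Continuous (fun p : ℝ × ℝ => ((max p.1 0, p.2) : ℝ × ℝ)) :=
    (continuous_fst.max continuous_const).prodMk continuous_snd
  exact h.comp_continuous h1 (fun p => ⟨mem_Ici.mpr (le_max_right _ _), mem_univ _⟩)

/-- the time integral of phase 1 -/
noncomputable def RR (ζ : ℝ → ℝ) (k : ℝ → ℝ → ℝ) (a t x : ℝ) : ℝ :=
  ∫ r in t..1, (ζ (cl r) - 1) * k (max (a * (r - t)) 0) x

section RR

variable {ζ : ℝ → ℝ} {k : ℝ → ℝ → ℝ} {C a : ℝ}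

lemma rr_bd (hζ : IsCdf ζ) (hC : ∀ w x : ℝ, 0 ≤ w → |k w x| ≤ C) (r t x : ℝ) :
    |(ζ (cl r) - 1) * k (max (a * (r - t)) 0) x| ≤ C := by
  obtain ⟨z1, z2⟩ := zc_bd hζ r
  have h1 : |ζ (cl r) - 1| ≤ 1 := by rw [abs_le]; constructor <;> linarith
  have h2 := hC (max (a * (r - t)) 0) x (le_max_right _ _)
  rw [abs_mul]
  calc |ζ (cl r) - 1| * |k (max (a * (r - t)) 0) x| ≤ 1 * C :=
        mul_le_mul h1 h2 (abs_nonneg _) zero_le_one
    _ = C := one_mul _

lemma rr_meas (hζ : IsCdf ζ)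
    (h : ContinuousOn (fun p : ℝ × ℝ => k p.1 p.2) (Ici 0 ×ˢ univ)) (t x : ℝ) :
    Measurable (fun r => (ζ (cl r) - 1) * k (max (a * (r - t)) 0) x) := by
  have e1 : Continuous (fun r : ℝ => k (max (a * (r - t)) 0) x) :=
    (contOn_ext h).comp (by fun_prop : Continuous (fun r : ℝ => ((a * (r - t), x) : ℝ × ℝ)))
  exact ((zc_meas hζ).sub_const 1).mul e1.measurable

lemma rr_cont (hζ : IsCdf ζ)
    (h : ContinuousOn (fun p : ℝ × ℝ => k p.1 p.2) (Ici 0 ×ˢ univ))
    (hC : ∀ w x : ℝ, 0 ≤ w → |k w x| ≤ C) :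
    Continuous (fun p : ℝ × ℝ => RR ζ k a p.1 p.2) := by
  unfold RR
  apply cont_int (F := fun p r => (ζ (cl r) - 1) * k (max (a * (r - p.1)) 0) p.2) (C := C) 1
  · intro p; exact rr_meas hζ h p.1 p.2
  · intro p r; exact rr_bd hζ hC r p.1 p.2
  · intro r
    have e1 : Continuous (fun p : ℝ × ℝ => k (max (a * (r - p.1)) 0) p.2) :=
      (contOn_ext h).comp (by fun_prop :
        Continuous (fun p : ℝ × ℝ => ((a * (r - p.1), p.2) : ℝ × ℝ)))
    exact continuous_const.mul e1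

lemma rr_deriv (hζ : IsCdf ζ) {k' : ℝ → ℝ → ℝ}
    (h : ContinuousOn (fun p : ℝ × ℝ => k p.1 p.2) (Ici 0 ×ˢ univ))
    (h' : ContinuousOn (fun p : ℝ × ℝ => k' p.1 p.2) (Ici 0 ×ˢ univ))
    (hC : ∀ w x : ℝ, 0 ≤ w → |k w x| ≤ C) (hC' : ∀ w x : ℝ, 0 ≤ w → |k' w x| ≤ C)
    (hd : ∀ w x : ℝ, 0 ≤ w → HasDerivAt (k w) (k' w x) x) (t x : ℝ) :
    HasDerivAt (RR ζ k a t) (RR ζ k' a t x) x := by
  unfold RR
  exact deriv_int (k := fun r x => (ζ (cl r) - 1) * k (max (a * (r - t)) 0) x)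
    (k' := fun r x => (ζ (cl r) - 1) * k' (max (a * (r - t)) 0) x) (C := C) t 1 x
    (fun x => rr_meas hζ h t x) (fun x => rr_meas hζ h' t x) (fun r x => rr_bd hζ hC r t x)
    (fun r x => rr_bd hζ hC' r t x) (fun r x => (hd _ x (le_max_right _ _)).const_mul _)

end RR

theorem t_PH1 (hM : St_MAX) (hL : St_LEIB) (hK : St_KD) : St_PH1 := by
  intro β q ζ f hβ hq0 hq1 hζ hf x y
  obtain ⟨fx, fxx, hd, hc1, hc2, ⟨C, hC⟩, hint⟩ := hf
  obtain ⟨Kx, Kxx, CK, kd1, kd2, kc0, kc1, kc2, kb, k0⟩ := hK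
  have ha : (0 : ℝ) < 2 * β ^ 2 := by positivity
  set a : ℝ := 2 * β ^ 2 with hadef
  have b0 : ∀ w x : ℝ, 0 ≤ w → |KK w x| ≤ CK := fun w x h => (kb w x h).1
  have b1 : ∀ w x : ℝ, 0 ≤ w → |Kx w x| ≤ CK := fun w x h => (kb w x h).2.1
  have b2 : ∀ w x : ℝ, 0 ≤ w → |Kxx w x| ≤ CK := fun w x h => (kb w x h).2.2
  have hCK : 0 ≤ CK := (abs_nonneg _).trans (b0 0 0 le_rfl)
  have hC0 : 0 ≤ C := (abs_nonneg _).trans (hC 0 ⟨le_rfl, zero_le_one⟩ 0).1
  have hR1 : ∀ t x, HasDerivAt (RR ζ KK a t) (RR ζ Kx a t x) x := fun t x =>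
    rr_deriv hζ kc0 kc1 b0 b1 (fun w x h => (kd1 w x h).1) t x
  have hR2 : ∀ t x, HasDerivAt (RR ζ Kx a t) (RR ζ Kxx a t x) x := fun t x =>
    rr_deriv hζ kc1 kc2 b1 b2 (fun w x h => (kd1 w x h).2) t x
  -- time derivative of `R`
  have hRt : ∀ t ∈ Ico (0 : ℝ) 1, ∀ x, HasDerivWithinAt (fun τ => RR ζ KK a τ x)
      (-((ζ t - 1) * Real.tanh x ^ 2) - a / 2 * RR ζ Kxx a t x
        - a * Real.tanh x * RR ζ Kx a t x) (Ici t) t := by
    intro t ht x
    have hcl : cl t = t := cl_eq ⟨ht.1, ht.2.le⟩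
    have hkc : ContinuousOn (fun p : ℝ × ℝ => KK p.2 x) (Icc t 1 ×ˢ Ici 0) := by
      refine kc0.comp (g := fun p : ℝ × ℝ => KK p.1 p.2) (f := fun p : ℝ × ℝ => ((p.2, x) : ℝ × ℝ))
        (by fun_prop) ?_
      intro p hp
      exact ⟨hp.2, mem_univ _⟩
    have hkwc : ContinuousOn (fun p : ℝ × ℝ => Kxx p.2 x / 2 + Real.tanh x * Kx p.2 x)
        (Icc t 1 ×ˢ Ici 0) := by
      have e1 : ContinuousOn (fun p : ℝ × ℝ => Kxx p.2 x) (Icc t 1 ×ˢ Ici 0) := by
        refine kc2.comp (g := fun p : ℝ × ℝ => Kxx p.1 p.2)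
          (f := fun p : ℝ × ℝ => ((p.2, x) : ℝ × ℝ)) (by fun_prop) ?_
        intro p hp
        exact ⟨hp.2, mem_univ _⟩
      have e2 : ContinuousOn (fun p : ℝ × ℝ => Kx p.2 x) (Icc t 1 ×ˢ Ici 0) := by
        refine kc1.comp (g := fun p : ℝ × ℝ => Kx p.1 p.2)
          (f := fun p : ℝ × ℝ => ((p.2, x) : ℝ × ℝ)) (by fun_prop) ?_
        intro p hp
        exact ⟨hp.2, mem_univ _⟩
      exact (e1.div_const 2).add (continuousOn_const.mul e2)
    have h := hL a t 1 1 (fun r => ζ (cl r) - 1) (fun _ w => KK w x)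
      (fun _ w => Kxx w x / 2 + Real.tanh x * Kx w x) ha ht.2 ((zc_meas hζ).sub_const 1)
      (fun r _ => by
        obtain ⟨z1, z2⟩ := zc_bd hζ r
        rw [abs_le]; constructor <;> linarith)
      ((zc_rc hζ ht).sub continuousWithinAt_const)
      (fun r _ w hw => kd2 w x hw) hkc hkwc
    have hval : (-((fun r => ζ (cl r) - 1) t * (fun (_ : ℝ) (w : ℝ) => KK w x) t 0)
        - a * ∫ r in t..1, (fun r => ζ (cl r) - 1) r *
          (fun (_ : ℝ) (w : ℝ) => Kxx w x / 2 + Real.tanh x * Kx w x) r (a * (r - t)))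
        = -((ζ t - 1) * Real.tanh x ^ 2) - a / 2 * RR ζ Kxx a t x
          - a * Real.tanh x * RR ζ Kx a t x := by
      simp only [hcl, k0]
      have e : (∫ r in t..1, (ζ (cl r) - 1) *
          (Kxx (a * (r - t)) x / 2 + Real.tanh x * Kx (a * (r - t)) x))
          = 1 / 2 * RR ζ Kxx a t x + Real.tanh x * RR ζ Kx a t x := by
        unfold RR
        rw [← intervalIntegral.integral_const_mul, ← intervalIntegral.integral_const_mul,
          ← intervalIntegral.integral_add]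
        · apply intervalIntegral.integral_congr
          intro r hr
          rw [uIcc_of_le ht.2.le] at hr
          have hm : max (a * (r - t)) 0 = a * (r - t) :=
            max_eq_left (mul_nonneg ha.le (sub_nonneg.mpr hr.1))
          simp only [hm]
          ring
        · exact (ii_of_bdd (rr_meas hζ kc2 t x) (fun r => rr_bd hζ b2 r t x) t 1).const_mul _
        · exact (ii_of_bdd (rr_meas hζ kc1 t x) (fun r => rr_bd hζ b1 r t x) t 1).const_mul _
      rw [e]
      ring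
    rw [hval] at h
    have hcongr : ∀ τ, τ ≤ 1 → RR ζ KK a τ x = ∫ r in τ..1, (ζ (cl r) - 1) * KK (a * (r - τ)) x := by
      intro τ hτ
      unfold RR
      apply intervalIntegral.integral_congr
      intro r hr
      rw [uIcc_of_le hτ] at hr
      have hm : max (a * (r - τ)) 0 = a * (r - τ) :=
        max_eq_left (mul_nonneg ha.le (sub_nonneg.mpr hr.1))
      simp only [hm]
    refine h.congr_of_eventuallyEq ?_ (hcongr t ht.2.le)
    have : Ico t 1 ∈ 𝓝[Ici t] t := Ico_mem_nhdsGE ht.2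
    filter_upwards [this] with τ hτ
    exact hcongr τ hτ.2.le
  -- the comparison function
  set M : ℝ := β ^ 2 * (C + C ^ 2) with hMdef
  have hM0 : 0 ≤ M := by positivity
  set C' : ℝ := M + β ^ 2 + β ^ 2 * CK + 2 + a with hC'
  have key := hM a q 1 C'
    (fun t x y => f t y - (Real.log (Real.cosh x) + β ^ 2 * (1 - t) + β ^ 2 * RR ζ KK a t x
      + (y - x) * Real.tanh x))
    (fun t x y => -(β ^ 2 * (fxx t y + ζ t * fx t y ^ 2)) - (-β ^ 2 + β ^ 2 *
      (-((ζ t - 1) * Real.tanh x ^ 2) - a / 2 * RR ζ Kxx a t x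
        - a * Real.tanh x * RR ζ Kx a t x)))
    (fun t x y => fx t y - (Real.tanh x + β ^ 2 * RR ζ Kx a t x + (y - x) * sech x ^ 2))
    (fun t x y => fxx t y - (sech x ^ 2 + β ^ 2 * RR ζ Kxx a t x
      + (y - x) * (-(2 * Real.tanh x * sech x ^ 2))))
    (fun t x y => -(Real.tanh x + β ^ 2 * RR ζ Kx a t x +
      (-Real.tanh x + (y - x) * sech x ^ 2)))
    (fun t x y => fx t y - Real.tanh x)
    (fun _ x _ => a * Real.tanh x) (fun t x _ => a * ζ t * Real.tanh x) ha hq1 ?_ ?_ ?_ ?_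
    q ⟨le_rfl, hq1⟩ x y
  · -- conclusion
    have e : (∫ r in q..1, (ζ r - 1) * KK (a * (r - q)) x) = RR ζ KK a q x := by
      unfold RR
      apply intervalIntegral.integral_congr
      intro r hr
      rw [uIcc_of_le hq1] at hr
      have hm : max (a * (r - q)) 0 = a * (r - q) :=
        max_eq_left (mul_nonneg ha.le (sub_nonneg.mpr hr.1))
      have hcl : cl r = r := cl_eq ⟨hq0.trans hr.1, hr.2⟩
      simp only [hm, hcl]
    rw [e]
    linarith
  · -- continuity
    have e1 : ContinuousOn (fun p : ℝ × ℝ × ℝ => f p.1 p.2.2) (Icc q 1 ×ˢ univ) := by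
      have hfc := f_cont (β := β) hζ hc1 hc2 hC hint
      refine hfc.comp (g := fun p : ℝ × ℝ => f p.1 p.2)
        (f := fun p : ℝ × ℝ × ℝ => ((p.1, p.2.2) : ℝ × ℝ)) (by fun_prop) ?_
      intro p hp
      exact ⟨⟨hq0.trans hp.1.1, hp.1.2⟩, mem_univ _⟩
    have e2 : Continuous (fun p : ℝ × ℝ × ℝ => RR ζ KK a p.1 p.2.1) :=
      (rr_cont hζ kc0 b0).comp (by fun_prop :
        Continuous (fun p : ℝ × ℝ × ℝ => ((p.1, p.2.1) : ℝ × ℝ)))
    have e3 : Continuous (fun p : ℝ × ℝ × ℝ => Real.log (Real.cosh p.2.1)) :=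
      cont_logcosh.comp (continuous_fst.comp continuous_snd)
    have e4 : Continuous (fun p : ℝ × ℝ × ℝ => Real.tanh p.2.1) :=
      cont_tanh.comp (continuous_fst.comp continuous_snd)
    have e5 : Continuous (fun p : ℝ × ℝ × ℝ => Real.log (Real.cosh p.2.1) + β ^ 2 * (1 - p.1)
        + β ^ 2 * RR ζ KK a p.1 p.2.1 + (p.2.2 - p.2.1) * Real.tanh p.2.1) := by fun_prop
    exact e1.sub e5.continuousOn
  · -- derivatives
    intro t ht x y
    have ht0 : t ∈ Ico (0 : ℝ) 1 := ⟨hq0.trans ht.1, ht.2⟩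
    have ht1 : t ∈ Icc (0 : ℝ) 1 := ⟨ht0.1, ht0.2.le⟩
    refine ⟨?_, ?_, ?_, ?_, ?_, ?_, ?_, ?_⟩
    · have h1 := f_deriv (β := β) hζ hc1 hc2 hC hint ht0 y
      have h2 : HasDerivWithinAt (fun τ : ℝ => Real.log (Real.cosh x) + β ^ 2 * (1 - τ)
          + β ^ 2 * RR ζ KK a τ x + (y - x) * Real.tanh x)
          (-β ^ 2 + β ^ 2 * (-((ζ t - 1) * Real.tanh x ^ 2) - a / 2 * RR ζ Kxx a t x
            - a * Real.tanh x * RR ζ Kx a t x)) (Ici t) t := by
        have h3 : HasDerivWithinAt (fun τ : ℝ => Real.log (Real.cosh x) + β ^ 2 * (1 - τ))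
            (-β ^ 2) (Ici t) t := by
          have h4 : HasDerivAt (fun τ : ℝ => Real.log (Real.cosh x) + β ^ 2 * (1 - τ))
              (β ^ 2 * (-1)) t :=
            (((hasDerivAt_id t).const_sub 1).const_mul (β ^ 2)).const_add _
          have h5 : β ^ 2 * (-1 : ℝ) = -β ^ 2 := by ring
          rw [h5] at h4
          exact h4.hasDerivWithinAt
        exact (h3.add ((hRt t ht0 x).const_mul (β ^ 2))).add_const _
      exact h1.sub h2
    · have h1 : HasDerivAt (fun u => f t (y + u)) (fx t y) 0 := sh0 (hd t ht1 y).1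
      have h2 : HasDerivAt (fun u => Real.log (Real.cosh (x + u))) (Real.tanh x) 0 :=
        sh0 (hd_logcosh x)
      have h3 : HasDerivAt (fun u => RR ζ KK a t (x + u)) (RR ζ Kx a t x) 0 := sh0 (hR1 t x)
      have h4 : HasDerivAt (fun u => Real.tanh (x + u)) (sech x ^ 2) 0 := sh0 (hd_tanh x)
      have h5 := h1.sub (((h2.add_const (β ^ 2 * (1 - t))).add (h3.const_mul (β ^ 2))).add
        (h4.const_mul (y - x)))
      refine h5.congr_of_eventuallyEq (Filter.Eventually.of_forall fun u => ?_)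
      simp only [Pi.add_apply, Pi.sub_apply]
      ring
    · have h1 : HasDerivAt (fun u => fx t (y + u)) (fxx t y) 0 := sh0 (hd t ht1 y).2
      have h2 : HasDerivAt (fun u => Real.tanh (x + u)) (sech x ^ 2) 0 := sh0 (hd_tanh x)
      have h3 : HasDerivAt (fun u => RR ζ Kx a t (x + u)) (RR ζ Kxx a t x) 0 := sh0 (hR2 t x)
      have h4 : HasDerivAt (fun u => sech (x + u) ^ 2) (-(2 * Real.tanh x * sech x ^ 2)) 0 :=
        sh0 (F := fun x => sech x ^ 2) (hd_sech2 x)
      have h5 := h1.sub ((h2.add (h3.const_mul (β ^ 2))).add (h4.const_mul (y - x)))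
      refine h5.congr_of_eventuallyEq (Filter.Eventually.of_forall fun u => ?_)
      simp only [Pi.add_apply, Pi.sub_apply]
      ring
    · have h2 := hd_logcosh x
      have h3 := hR1 t x
      have h4 : HasDerivAt (fun u => (y - u) * Real.tanh u)
          (-Real.tanh x + (y - x) * sech x ^ 2) x := by
        have h := ((hasDerivAt_id x).const_sub y).fun_mul (hd_tanh x)
        simpa using h
      have h5 := (((h2.add_const (β ^ 2 * (1 - t))).fun_add (h3.const_mul (β ^ 2))).fun_add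
        h4).const_sub (f t y)
      exact h5
    · have h1 := (hd t ht1 y).1
      have h4 : HasDerivAt (fun u => (u - x) * Real.tanh x) (Real.tanh x) y := by
        have h := ((hasDerivAt_id y).sub_const x).mul_const (Real.tanh x)
        simpa using h
      exact h1.fun_sub (h4.const_add (Real.log (Real.cosh x) + β ^ 2 * (1 - t)
        + β ^ 2 * RR ζ KK a t x))
    · have h1 := abs_tanh_le x
      rw [abs_mul, abs_of_pos ha]
      have h2 : a * |Real.tanh x| ≤ a := mul_le_of_le_one_right ha.le h1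
      have h3 : 0 ≤ β ^ 2 * CK := by positivity
      have h4 : 0 ≤ β ^ 2 := sq_nonneg β
      linarith
    · have h1 := abs_tanh_le x
      obtain ⟨z1, z2⟩ := hζ.2.1 t ht1
      rw [abs_mul, abs_mul, abs_of_pos ha, abs_of_nonneg z1]
      have h2 : a * ζ t * |Real.tanh x| ≤ a * 1 * 1 :=
        mul_le_mul (mul_le_mul_of_nonneg_left z2 ha.le) h1 (abs_nonneg _) (by positivity)
      have h3 : 0 ≤ β ^ 2 * CK := by positivity
      have h4 : 0 ≤ β ^ 2 := sq_nonneg β
      linarith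
    · obtain ⟨z1, z2⟩ := hζ.2.1 t ht1
      have hS : sech x ^ 2 = 1 - Real.tanh x ^ 2 := by have := tanh_sq x; linarith
      have hfin : 0 ≤ β ^ 2 * ζ t * (fx t y - Real.tanh x) ^ 2 := by positivity
      simp only [hS]
      rw [hadef]
      nlinarith [hfin]
  · -- terminal value
    intro x y
    have e1 : f 1 y = Real.log (Real.cosh y) := by
      rw [hint 1 ⟨zero_le_one, le_rfl⟩ y, intervalIntegral.integral_same, add_zero]
    have e2 : RR ζ KK a 1 x = 0 := by
      unfold RR; exact intervalIntegral.integral_same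
    have := logcosh_convex x y
    simp only [e1, e2]
    linarith
  · -- growth
    intro t ht x y
    have ht1 : t ∈ Icc (0 : ℝ) 1 := ⟨hq0.trans ht.1, ht.2⟩
    have h1 : -M ≤ f t y := f_lower (β := β) hζ hC hint ht1 y
    have h2 := logcosh_le x
    have h3 : |RR ζ KK a t x| ≤ CK := by
      have := intervalIntegral.norm_integral_le_of_norm_le_const (a := t) (b := 1)
        (f := fun r => (ζ (cl r) - 1) * KK (max (a * (r - t)) 0) x) (C := CK)
        (fun r _ => rr_bd hζ b0 r t x)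
      have h4 : |1 - t| ≤ 1 := by rw [abs_le]; constructor <;> linarith [ht1.1, ht1.2]
      exact this.trans (mul_le_of_le_one_right hCK h4)
    have h4 : β ^ 2 * RR ζ KK a t x ≤ β ^ 2 * CK :=
      mul_le_mul_of_nonneg_left ((le_abs_self _).trans h3) (sq_nonneg β)
    have h5 : (y - x) * Real.tanh x ≤ |x| + |y| := by
      have e1 : (y - x) * Real.tanh x ≤ |y - x| * |Real.tanh x| := by
        rw [← abs_mul]; exact le_abs_self _
      have e2 : |y - x| * |Real.tanh x| ≤ |y - x| :=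
        mul_le_of_le_one_right (abs_nonneg _) (abs_tanh_le x)
      have e3 : |y - x| ≤ |y| + |x| := abs_sub _ _
      linarith
    have h6 : β ^ 2 * (1 - t) ≤ β ^ 2 * 1 :=
      mul_le_mul_of_nonneg_left (by linarith [ht1.1]) (sq_nonneg β)
    have h7 : 0 ≤ β ^ 2 * CK := by positivity
    have h8 : 0 ≤ β ^ 2 := sq_nonneg β
    have h9 : 0 ≤ |x| := abs_nonneg x
    have h10 : 0 ≤ |y| := abs_nonneg y
    have h11 : C' * (1 + |x| + |y|) = C' + (C' - 2) * |x| + (C' - 2) * |y| + 2 * |x| + 2 * |y| := by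
      ring
    have h12 : 0 ≤ C' - 2 := by linarith
    have h13 : 0 ≤ (C' - 2) * |x| := mul_nonneg h12 h9
    have h14 : 0 ≤ (C' - 2) * |y| := mul_nonneg h12 h10
    linarith

end Pool.Agent.TH727.AT
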