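import Pool.Agent.TH198.AT.Stmts

/-!
# Tools for the phases 1 and 2 of the dA-T line: Parisi solutions, parameter integrals
-/

set_option autoImplicit false

open MeasureTheory ProbabilityTheory Set Filter Topology
open Pool.TH198.AT

namespace Pool.Agent.TH727.AT

/-- clamp to `[0,1]` -/
noncomputable def cl (r : ℝ) : ℝ := max 0 (min 1 r)

lemma cl_mem (r : ℝ) : cl r ∈ Icc (0 : ℝ) 1 := by
  unfold cl
  constructor
  · exact le_max_left _ _
  · exact max_le zero_le_one (min_le_left _ _)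

lemma cl_eq {r : ℝ} (h : r ∈ Icc (0 : ℝ) 1) : cl r = r := by
  unfold cl
  rw [min_eq_right h.2, max_eq_right h.1]

lemma cl_mono : Monotone cl := by
  intro a b h
  unfold cl
  exact max_le_max le_rfl (min_le_min le_rfl h)

lemma cl_cont : Continuous cl := by
  unfold cl
  exact continuous_const.max (continuous_const.min continuous_id)

lemma zc_meas {ζ : ℝ → ℝ} (h : IsCdf ζ) : Measurable (fun r => ζ (cl r)) := by
  have : Monotone (fun r => ζ (cl r)) := fun a b hab => h.1 (cl_mem a) (cl_mem b) (cl_mono hab)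
  exact this.measurable

lemma zc_bd {ζ : ℝ → ℝ} (h : IsCdf ζ) (r : ℝ) : 0 ≤ ζ (cl r) ∧ ζ (cl r) ≤ 1 := h.2.1 _ (cl_mem r)

/-- right continuity of the clamped distribution function -/
lemma zc_rc {ζ : ℝ → ℝ} (h : IsCdf ζ) {t : ℝ} (ht : t ∈ Ico (0 : ℝ) 1) :
    ContinuousWithinAt (fun r => ζ (cl r)) (Ici t) t := by
  have h1 : ContinuousWithinAt ζ (Ici t) t := h.2.2.2 t ht
  have h0 : cl t = t := cl_eq ⟨ht.1, ht.2.le⟩
  have h2 : ContinuousWithinAt ζ (Ici t) (cl t) := by rw [h0]; exact h1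
  refine ContinuousWithinAt.comp (t := Ici t) h2 cl_cont.continuousWithinAt ?_
  intro r hr
  have : cl t ≤ cl r := cl_mono hr
  rw [h0] at this
  exact this

/-- integrability of bounded measurable functions -/
lemma ii_of_bdd {g : ℝ → ℝ} {C : ℝ} (hg : Measurable g) (hC : ∀ r, |g r| ≤ C) (u v : ℝ) :
    IntervalIntegrable g volume u v := by
  refine (intervalIntegrable_const (c := C) (μ := volume) (a := u) (b := v)).mono_fun
    hg.aestronglyMeasurable ?_
  refine Filter.Eventually.of_forall fun r => ?_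
  simp only [Real.norm_eq_abs]
  exact (hC r).trans (le_abs_self _)

/-- right derivative of an integral with respect to the lower bound -/
lemma deriv_left {g : ℝ → ℝ} {C t T : ℝ} (hg : Measurable g) (hC : ∀ r, |g r| ≤ C)
    (hc : ContinuousWithinAt g (Ici t) t) :
    HasDerivWithinAt (fun τ => ∫ r in τ..T, g r) (-(g t)) (Ici t) t := by
  refine intervalIntegral.integral_hasDerivWithinAt_left (t := Ioi t) (ii_of_bdd hg hC t T) ?_ ?_
  · exact hg.stronglyMeasurable.stronglyMeasurableAtFilter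
  · exact hc.mono Ioi_subset_Ici_self

/-- joint continuity of `(t,x) ↦ ∫_t^T F(t,x,r) dr` for bounded `F` continuous in `(t,x)` -/
lemma cont_int {F : ℝ × ℝ → ℝ → ℝ} {C : ℝ} (T : ℝ) (hm : ∀ p, Measurable (F p))
    (hC : ∀ p r, |F p r| ≤ C) (hF : ∀ r, Continuous (fun p => F p r)) :
    Continuous (fun p : ℝ × ℝ => ∫ r in p.1..T, F p r) := by
  have hi : ∀ (p : ℝ × ℝ) (u v : ℝ), IntervalIntegrable (F p) volume u v :=
    fun p u v => ii_of_bdd (hm p) (hC p) u v
  rw [continuous_iff_continuousAt]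
  rintro ⟨t0, x0⟩
  have h1 : ContinuousAt (fun p : ℝ × ℝ => ∫ r in t0..T, F p r) (t0, x0) := by
    apply intervalIntegral.continuousAt_of_dominated_interval (bound := fun _ => C)
    · exact Filter.Eventually.of_forall fun p => (hm p).aestronglyMeasurable
    · exact Filter.Eventually.of_forall fun p => Filter.Eventually.of_forall fun r _ => hC p r
    · exact intervalIntegrable_const
    · exact Filter.Eventually.of_forall fun r _ => (hF r).continuousAt
  have h2 : ContinuousAt (fun p : ℝ × ℝ => ∫ r in p.1..t0, F p r) (t0, x0) := by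
    have h0 : (∫ r in t0..t0, F (t0, x0) r) = 0 := intervalIntegral.integral_same
    rw [ContinuousAt]
    simp only [h0]
    apply squeeze_zero_norm (a := fun p : ℝ × ℝ => C * |t0 - p.1|)
    · intro p
      exact intervalIntegral.norm_integral_le_of_norm_le_const fun r _ => hC p r
    · have : Continuous (fun p : ℝ × ℝ => C * |t0 - p.1|) := by fun_prop
      have h3 := this.tendsto (t0, x0)
      simpa using h3
  have h3 : (fun p : ℝ × ℝ => ∫ r in p.1..T, F p r) =
      fun p => (∫ r in p.1..t0, F p r) + ∫ r in t0..T, F p r := by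
    funext p
    rw [intervalIntegral.integral_add_adjacent_intervals (hi p _ _) (hi p _ _)]
  rw [h3]
  exact h2.add h1

/-- derivative under the integral sign -/
lemma deriv_int {k k' : ℝ → ℝ → ℝ} {C : ℝ} (t T x : ℝ) (hm : ∀ x, Measurable (fun r => k r x))
    (hm' : ∀ x, Measurable (fun r => k' r x)) (hC : ∀ r x, |k r x| ≤ C)
    (hC' : ∀ r x, |k' r x| ≤ C) (hd : ∀ r x, HasDerivAt (k r) (k' r x) x) :
    HasDerivAt (fun x => ∫ r in t..T, k r x) (∫ r in t..T, k' r x) x := by
  refine (intervalIntegral.hasDerivAt_integral_of_dominated_loc_of_deriv_le (μ := volume)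
    (F := fun x r => k r x) (F' := fun x r => k' r x) (bound := fun _ => C) (s := univ)
    Filter.univ_mem ?_ ?_ ?_ ?_ ?_ ?_).2
  · exact Filter.Eventually.of_forall fun x => (hm x).aestronglyMeasurable
  · exact ii_of_bdd (hm x) (fun r => hC r x) t T
  · exact (hm' x).aestronglyMeasurable
  · exact Filter.Eventually.of_forall fun r _ x _ => hC' r x
  · exact intervalIntegrable_const
  · exact Filter.Eventually.of_forall fun r _ x _ => hd r x

/-! ### Hyperbolic functions -/

lemma hd_logcosh (x : ℝ) : HasDerivAt (fun x => Real.log (Real.cosh x)) (Real.tanh x) x := by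
  have h := (Real.hasDerivAt_cosh x).log (Real.cosh_pos x).ne'
  rw [← Real.tanh_eq_sinh_div_cosh] at h
  exact h

lemma tanh_sq (x : ℝ) : Real.tanh x ^ 2 = 1 - sech x ^ 2 := by
  unfold sech
  rw [Real.tanh_eq_sinh_div_cosh]
  have h := Real.cosh_sq x
  have h0 := (Real.cosh_pos x).ne'
  field_simp
  linarith

lemma hd_tanh (x : ℝ) : HasDerivAt Real.tanh (sech x ^ 2) x := by
  have h := (Real.hasDerivAt_sinh x).div (Real.hasDerivAt_cosh x) (Real.cosh_pos x).ne'
  have h0 := (Real.cosh_pos x).ne'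
  have h1 : (fun x => Real.sinh x / Real.cosh x) = Real.tanh := by
    funext y; rw [Real.tanh_eq_sinh_div_cosh]
  have h2 : (Real.cosh x * Real.cosh x - Real.sinh x * Real.sinh x) / Real.cosh x ^ 2
      = sech x ^ 2 := by
    unfold sech
    have h3 := Real.cosh_sq x
    have h4 : Real.cosh x * Real.cosh x - Real.sinh x * Real.sinh x = 1 := by nlinarith
    rw [h4]
    field_simp
  have h5 : (Real.sinh / Real.cosh : ℝ → ℝ) = Real.tanh := by
    funext y; rw [Real.tanh_eq_sinh_div_cosh]; rfl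
  rw [h2] at h
  rw [← h5]
  exact h

lemma hd_sech (x : ℝ) : HasDerivAt sech (-(sech x * Real.tanh x)) x := by
  have h := (Real.hasDerivAt_cosh x).inv (Real.cosh_pos x).ne'
  have h0 := (Real.cosh_pos x).ne'
  have h2 : -Real.sinh x / Real.cosh x ^ 2 = -(sech x * Real.tanh x) := by
    unfold sech
    rw [Real.tanh_eq_sinh_div_cosh]
    field_simp
  rw [h2] at h
  exact h

lemma hd_sech2 (x : ℝ) :
    HasDerivAt (fun x => sech x ^ 2) (-(2 * Real.tanh x * sech x ^ 2)) x := by
  have h := (hd_sech x).fun_pow 2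
  refine h.congr_deriv ?_
  norm_num
  ring

lemma abs_tanh_le (x : ℝ) : |Real.tanh x| ≤ 1 := by
  have h := tanh_sq x
  have h1 : 0 ≤ sech x ^ 2 := sq_nonneg _
  have h2 : Real.tanh x ^ 2 ≤ 1 := by linarith
  exact abs_le_one_iff_mul_self_le_one.mpr (by nlinarith)

lemma sech2_le (x : ℝ) : sech x ^ 2 ≤ 1 := by
  have h := tanh_sq x
  have := sq_nonneg (Real.tanh x)
  linarith

lemma logcosh_nonneg (x : ℝ) : 0 ≤ Real.log (Real.cosh x) := Real.log_nonneg (Real.one_le_cosh x)

lemma logcosh_le (x : ℝ) : Real.log (Real.cosh x) ≤ |x| := by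
  rw [Real.log_le_iff_le_exp (Real.cosh_pos x), ← Real.cosh_abs, Real.cosh_eq]
  have h1 : Real.exp (-|x|) ≤ Real.exp |x| := Real.exp_le_exp.mpr (by have := abs_nonneg x; linarith)
  linarith

lemma cont_logcosh : Continuous (fun x => Real.log (Real.cosh x)) :=
  Real.continuous_cosh.log (fun x => (Real.cosh_pos x).ne')

lemma cont_tanh : Continuous Real.tanh := by
  rw [continuous_iff_continuousAt]
  exact fun x => (hd_tanh x).continuousAt

lemma cont_sech : Continuous sech := by
  rw [continuous_iff_continuousAt]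
  exact fun x => (hd_sech x).continuousAt

/-- convexity of `log cosh` -/
lemma logcosh_convex (x y : ℝ) :
    Real.log (Real.cosh x) + (y - x) * Real.tanh x ≤ Real.log (Real.cosh y) := by
  -- `cosh y ≥ cosh x * exp ((y-x) tanh x)`: use monotonicity of the derivative
  have hmono : Monotone Real.tanh := by
    apply monotone_of_deriv_nonneg (fun x => (hd_tanh x).differentiableAt)
    intro x
    rw [(hd_tanh x).deriv]
    positivity
  rcases le_total x y with h | h
  · have hm : MonotoneOn (fun u => Real.log (Real.cosh u) - u * Real.tanh x) (Ici x) := by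
      apply monotoneOn_of_deriv_nonneg (convex_Ici x)
      · exact (cont_logcosh.sub (continuous_id.mul continuous_const)).continuousOn
      · intro u _
        exact ((hd_logcosh u).sub ((hasDerivAt_id u).mul_const _)).differentiableAt.differentiableWithinAt
      · intro u hu
        rw [interior_Ici] at hu
        have := ((hd_logcosh u).sub ((hasDerivAt_id u).mul_const (Real.tanh x))).deriv
        simp only [id, one_mul] at this
        have h2 : deriv (fun u => Real.log (Real.cosh u) - u * Real.tanh x) u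
            = Real.tanh u - Real.tanh x := this
        rw [h2]
        have := hmono (le_of_lt hu)
        linarith
    have := hm (self_mem_Ici) (mem_Ici.mpr h) h
    simp only at this
    linarith
  · have hm : AntitoneOn (fun u => Real.log (Real.cosh u) - u * Real.tanh x) (Iic x) := by
      apply antitoneOn_of_deriv_nonpos (convex_Iic x)
      · exact (cont_logcosh.sub (continuous_id.mul continuous_const)).continuousOn
      · intro u _
        exact ((hd_logcosh u).sub ((hasDerivAt_id u).mul_const _)).differentiableAt.differentiableWithinAt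
      · intro u hu
        rw [interior_Iic] at hu
        have := ((hd_logcosh u).sub ((hasDerivAt_id u).mul_const (Real.tanh x))).deriv
        simp only [id, one_mul] at this
        have h2 : deriv (fun u => Real.log (Real.cosh u) - u * Real.tanh x) u
            = Real.tanh u - Real.tanh x := this
        rw [h2]
        have := hmono (le_of_lt hu)
        linarith
    have := hm (mem_Iic.mpr h) (self_mem_Iic) h
    simp only at this
    linarith

/-! ### Parisi solutions -/

section Parisi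

variable {β : ℝ} {ζ : ℝ → ℝ} {f fx fxx : ℝ → ℝ → ℝ} {C : ℝ}

/-- the integrand, clamped in time -/
noncomputable def gc (β : ℝ) (ζ : ℝ → ℝ) (fx fxx : ℝ → ℝ → ℝ) (r x : ℝ) : ℝ :=
  β ^ 2 * (fxx (cl r) x + ζ (cl r) * fx (cl r) x ^ 2)

lemma contOn_cl {k : ℝ → ℝ → ℝ} (h : ContinuousOn (fun p : ℝ × ℝ => k p.1 p.2) (Icc 0 1 ×ˢ univ)) :
    Continuous (fun p : ℝ × ℝ => k (cl p.1) p.2) := by
  have h1 : Continuous (fun p : ℝ × ℝ => ((cl p.1, p.2) : ℝ × ℝ)) := by
    exact (cl_cont.comp continuous_fst).prodMk continuous_snd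
  exact h.comp_continuous h1 (fun p => ⟨cl_mem _, mem_univ _⟩)

lemma gc_meas (hζ : IsCdf ζ)
    (h1 : ContinuousOn (fun p : ℝ × ℝ => fx p.1 p.2) (Icc 0 1 ×ˢ univ))
    (h2 : ContinuousOn (fun p : ℝ × ℝ => fxx p.1 p.2) (Icc 0 1 ×ˢ univ)) (x : ℝ) :
    Measurable (fun r => gc β ζ fx fxx r x) := by
  unfold gc
  have e1 : Continuous (fun r => fx (cl r) x) :=
    (contOn_cl h1).comp (continuous_id.prodMk continuous_const)
  have e2 : Continuous (fun r => fxx (cl r) x) :=
    (contOn_cl h2).comp (continuous_id.prodMk continuous_const)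
  exact (e2.measurable.add ((zc_meas hζ).mul (e1.measurable.pow_const 2))).const_mul _

lemma gc_bd (hζ : IsCdf ζ) (hC : ∀ t ∈ Icc (0 : ℝ) 1, ∀ x, |fx t x| ≤ C ∧ |fxx t x| ≤ C) (r x : ℝ) :
    |gc β ζ fx fxx r x| ≤ β ^ 2 * (C + C ^ 2) := by
  unfold gc
  obtain ⟨a1, a2⟩ := hC _ (cl_mem r) x
  obtain ⟨z1, z2⟩ := zc_bd hζ r
  have hC0 : 0 ≤ C := (abs_nonneg _).trans a1
  rw [abs_mul, abs_of_nonneg (sq_nonneg β)]
  refine mul_le_mul_of_nonneg_left ?_ (sq_nonneg β)
  refine (abs_add_le _ _).trans (add_le_add a2 ?_)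
  rw [abs_mul, abs_of_nonneg z1, abs_pow]
  calc ζ (cl r) * |fx (cl r) x| ^ 2 ≤ 1 * C ^ 2 :=
        mul_le_mul z2 (pow_le_pow_left₀ (abs_nonneg _) a1 2) (by positivity) zero_le_one
    _ = C ^ 2 := one_mul _

lemma f_eq (hf : ∀ t ∈ Icc (0 : ℝ) 1, ∀ x, f t x =
      Real.log (Real.cosh x) + ∫ r in t..1, β ^ 2 * (fxx r x + ζ r * fx r x ^ 2)) {t : ℝ}
    (ht : t ∈ Icc (0 : ℝ) 1) (x : ℝ) :
    f t x = Real.log (Real.cosh x) + ∫ r in t..1, gc β ζ fx fxx r x := by
  rw [hf t ht x]
  congr 1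
  apply intervalIntegral.integral_congr
  intro r hr
  rw [uIcc_of_le ht.2] at hr
  have : cl r = r := cl_eq ⟨ht.1.trans hr.1, hr.2⟩
  simp only [gc, this]

lemma f_cont (hζ : IsCdf ζ)
    (h1 : ContinuousOn (fun p : ℝ × ℝ => fx p.1 p.2) (Icc 0 1 ×ˢ univ))
    (h2 : ContinuousOn (fun p : ℝ × ℝ => fxx p.1 p.2) (Icc 0 1 ×ˢ univ))
    (hC : ∀ t ∈ Icc (0 : ℝ) 1, ∀ x, |fx t x| ≤ C ∧ |fxx t x| ≤ C)
    (hf : ∀ t ∈ Icc (0 : ℝ) 1, ∀ x, f t x =
      Real.log (Real.cosh x) + ∫ r in t..1, β ^ 2 * (fxx r x + ζ r * fx r x ^ 2)) :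
    ContinuousOn (fun p : ℝ × ℝ => f p.1 p.2) (Icc 0 1 ×ˢ univ) := by
  have hG : Continuous (fun p : ℝ × ℝ => ∫ r in p.1..1, gc β ζ fx fxx r p.2) := by
    apply cont_int (F := fun p r => gc β ζ fx fxx r p.2) (C := β ^ 2 * (C + C ^ 2)) 1
    · intro p; exact gc_meas hζ h1 h2 p.2
    · intro p r; exact gc_bd hζ hC r p.2
    · intro r
      unfold gc
      have e1 : Continuous (fun p : ℝ × ℝ => fx (cl r) p.2) :=
        (contOn_cl h1).comp (continuous_const.prodMk continuous_snd)
      have e2 : Continuous (fun p : ℝ × ℝ => fxx (cl r) p.2) :=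
        (contOn_cl h2).comp (continuous_const.prodMk continuous_snd)
      exact continuous_const.mul (e2.add (continuous_const.mul (e1.pow 2)))
  have hall : Continuous (fun p : ℝ × ℝ => Real.log (Real.cosh p.2) +
      ∫ r in p.1..1, gc β ζ fx fxx r p.2) := (cont_logcosh.comp continuous_snd).add hG
  refine hall.continuousOn.congr ?_
  rintro ⟨t, x⟩ hp
  exact f_eq hf hp.1 x

/-- right derivative in time of a Parisi solution -/
lemma f_deriv (hζ : IsCdf ζ)
    (h1 : ContinuousOn (fun p : ℝ × ℝ => fx p.1 p.2) (Icc 0 1 ×ˢ univ))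
    (h2 : ContinuousOn (fun p : ℝ × ℝ => fxx p.1 p.2) (Icc 0 1 ×ˢ univ))
    (hC : ∀ t ∈ Icc (0 : ℝ) 1, ∀ x, |fx t x| ≤ C ∧ |fxx t x| ≤ C)
    (hf : ∀ t ∈ Icc (0 : ℝ) 1, ∀ x, f t x =
      Real.log (Real.cosh x) + ∫ r in t..1, β ^ 2 * (fxx r x + ζ r * fx r x ^ 2)) {t : ℝ}
    (ht : t ∈ Ico (0 : ℝ) 1) (x : ℝ) :
    HasDerivWithinAt (fun τ => f τ x) (-(β ^ 2 * (fxx t x + ζ t * fx t x ^ 2))) (Ici t) t := by
  have hcl : cl t = t := cl_eq ⟨ht.1, ht.2.le⟩
  have hg : HasDerivWithinAt (fun τ => ∫ r in τ..1, gc β ζ fx fxx r x)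
      (-(gc β ζ fx fxx t x)) (Ici t) t := by
    apply deriv_left (gc_meas hζ h1 h2 x) (fun r => gc_bd hζ hC r x)
    unfold gc
    have e1 : Continuous (fun r => fx (cl r) x) :=
      (contOn_cl h1).comp (continuous_id.prodMk continuous_const)
    have e2 : Continuous (fun r => fxx (cl r) x) :=
      (contOn_cl h2).comp (continuous_id.prodMk continuous_const)
    exact continuousWithinAt_const.mul (e2.continuousWithinAt.add
      ((zc_rc hζ ht).mul (e1.continuousWithinAt.pow 2)))
  have h3 := hg.const_add (Real.log (Real.cosh x))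
  have h4 : gc β ζ fx fxx t x = β ^ 2 * (fxx t x + ζ t * fx t x ^ 2) := by
    simp only [gc, hcl]
  rw [h4] at h3
  refine h3.congr_of_eventuallyEq ?_ (f_eq hf ⟨ht.1, ht.2.le⟩ x)
  have : Ico t 1 ∈ 𝓝[Ici t] t := Ico_mem_nhdsGE ht.2
  filter_upwards [this] with τ hτ
  exact f_eq hf ⟨ht.1.trans hτ.1, hτ.2.le⟩ x

/-- lower bound -/
lemma f_lower (hζ : IsCdf ζ)
    (hC : ∀ t ∈ Icc (0 : ℝ) 1, ∀ x, |fx t x| ≤ C ∧ |fxx t x| ≤ C)
    (hf : ∀ t ∈ Icc (0 : ℝ) 1, ∀ x, f t x =
      Real.log (Real.cosh x) + ∫ r in t..1, β ^ 2 * (fxx r x + ζ r * fx r x ^ 2)) {t : ℝ}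
    (ht : t ∈ Icc (0 : ℝ) 1) (x : ℝ) : -(β ^ 2 * (C + C ^ 2)) ≤ f t x := by
  rw [f_eq hf ht x]
  have h1 := logcosh_nonneg x
  have h2 : ‖∫ r in t..1, gc β ζ fx fxx r x‖ ≤ (β ^ 2 * (C + C ^ 2)) * |1 - t| :=
    intervalIntegral.norm_integral_le_of_norm_le_const fun r _ => gc_bd hζ hC r x
  have h3 : |1 - t| ≤ 1 := by
    rw [abs_le]; constructor <;> linarith [ht.1, ht.2]
  have hC0 : 0 ≤ C := (abs_nonneg _).trans (hC t ht x).1
  have h4 : (β ^ 2 * (C + C ^ 2)) * |1 - t| ≤ β ^ 2 * (C + C ^ 2) :=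
    mul_le_of_le_one_right (by positivity) h3
  have h5 := (abs_le.mp (h2.trans h4)).1
  linarith

end Parisi

end Pool.Agent.TH727.AT
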